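import Pool.Agent.H67.OmArc.Competitor
import Pool.Agent.H67.OmArc.TypeTwo
import Pool.Agent.H67.OmArc.TypeThree

set_option autoImplicit false

/-!
# Waniurski's description of the extremal convex domains fails for the omitted arc length

For `r = 471/500` the supremum `L^c(r)` over `S^c` is attained, and no function attaining it maps
the disc onto a half-plane, onto a symmetric sector, or onto a domain bounded by an arc of
`|w| = r` and the tangent lines at its endpoints.

Proof. The explicit rational convex function `Comp.fc` covers a set of angles of measure at most
`2 arccos (5/13)` on the circle `|w| = 471/500`. Half-planes and sectors cover more by elementary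
estimates; a domain of the third shape covering no more would be contained in (a rotation of) the
domain of the third shape whose uncovered arc has length `2π - 2 arccos (5/13)`, and on this domain
an explicit polynomial is bounded by one while its derivative at `0` is `9423/9420` after scaling,
which contradicts the Schwarz lemma.
-/

namespace Pool.Agent.Results.MP_a0a602_an.ArcLengthCounterexample

open Pool.Agent.H67.OmArc

/-- For `r = 471/500 ∈ (1/2, 1)` extremal functions for `L^c(r)` exist, and none of the extremal
domains for `L^c(r)` is a half-plane, a symmetric sector, or a domain of shape (iii). -/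
theorem result :
    (1 / 2 : ℝ) < 471 / 500 ∧ (471 / 500 : ℝ) < 1 ∧
    (∃ f : ℂ → ℂ, IsExtremalL f (471 / 500)) ∧
    ∀ f : ℂ → ℂ, IsExtremalL f (471 / 500) →
      ¬ IsHalfPlane (img f) ∧ ¬ IsSymmSector (img f) ∧ ¬ IsArcTangent (471 / 500) (img f) := by
  refine ⟨by norm_num, by norm_num, exists_extremal (by norm_num) (by norm_num), ?_⟩
  rintro f ⟨hf, hext⟩
  have hle : cov (img f) (471 / 500) ≤ ENNReal.ofReal (2 * phi0) :=
    ((L_le_iff hf Comp.fc_mem (by norm_num) (by norm_num)).1 (hext _ Comp.fc_mem)).trans
      Comp.cov_fc
  refine ⟨fun h => ?_, fun h => ?_, fun h => ?_⟩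
  · exact absurd (lt_cov_of_isHalfPlane hf (by norm_num) h) (not_lt.2 hle)
  · exact absurd (lt_cov_of_isSymmSector hf (by norm_num) (by norm_num) h) (not_lt.2 hle)
  · exact absurd (lt_cov_of_isArcTangent hf h) (not_lt.2 hle)

end Pool.Agent.Results.MP_a0a602_an.ArcLengthCounterexample
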